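import Pool.Agent.Helper39K9.NAdic.Lattice
import Pool.Agent.Helper39K9.AFSR.Digits

/-!
# Counting
-/

namespace Pool.Agent.Helper39K9.NAdic

open Finset

open Classical in
lemma count_g (Q X g : ℕ) (hg : 1 ≤ g) (hgX : g ≤ X) (hXQ : X < Q) :
    ((Finset.range Q).filter fun α : ℕ => ∃ f : ℤ, f.natAbs ≤ X ∧ InL Q α f g).card ≤ 6 * X := by
  have hch : ∀ α : ℕ, (∃ f : ℤ, f.natAbs ≤ X ∧ InL Q α f g) →
      ∃ w : ℤ × ℤ, w.1.natAbs ≤ X ∧ (g : ℤ) * α - w.1 = Q * w.2 := by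
    rintro α ⟨f, hf, h, hh⟩
    exact ⟨(f, h), hf, hh⟩
  let W : ℕ → ℤ × ℤ := fun α => if h : ∃ f : ℤ, f.natAbs ≤ X ∧ InL Q α f g then (hch α h).choose
    else 0
  have hW : ∀ α : ℕ, (∃ f : ℤ, f.natAbs ≤ X ∧ InL Q α f g) →
      (W α).1.natAbs ≤ X ∧ (g : ℤ) * α - (W α).1 = Q * (W α).2 := by
    intro α h
    have : W α = (hch α h).choose := by simp only [W, dif_pos h]
    rw [this]
    exact (hch α h).choose_spec
  have hrange : ∀ α : ℕ, α < Q → (∃ f : ℤ, f.natAbs ≤ X ∧ InL Q α f g) →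
      0 ≤ (W α).2 ∧ (W α).2 ≤ g ∧ 0 ≤ (W α).1 + X ∧ (W α).1 + X ≤ 2 * X := by
    intro α hα h
    obtain ⟨h1, h2⟩ := hW α h
    have hQ : (0 : ℤ) < Q := by omega
    have hf1 : -(X : ℤ) ≤ (W α).1 := by omega
    have hf2 : (W α).1 ≤ X := by omega
    have hXQ' : (X : ℤ) < Q := by exact_mod_cast hXQ
    refine ⟨?_, ?_, by omega, by omega⟩
    · by_contra hneg
      push Not at hneg
      have h3 : (W α).2 ≤ -1 := by omega
      have h4 : (Q : ℤ) * (W α).2 ≤ Q * (-1) := mul_le_mul_of_nonneg_left h3 hQ.le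
      have h5 : (0 : ℤ) ≤ (g : ℤ) * α := by positivity
      linarith
    · by_contra hneg
      push Not at hneg
      have h3 : (g : ℤ) + 1 ≤ (W α).2 := by omega
      have h4 : (Q : ℤ) * ((g : ℤ) + 1) ≤ Q * (W α).2 := mul_le_mul_of_nonneg_left h3 hQ.le
      have h5 : (g : ℤ) * α ≤ g * Q := by
        apply mul_le_mul_of_nonneg_left _ (by positivity)
        exact_mod_cast hα.le
      nlinarith
  have hcard : ((Finset.range Q).filter fun α : ℕ => ∃ f : ℤ, f.natAbs ≤ X ∧ InL Q α f g).card ≤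
      (Finset.range (g + 1) ×ˢ Finset.range (2 * X / g + 1)).card := by
    refine Finset.card_le_card_of_injOn
      (fun α => ((W α).2.toNat, (((W α).1 + X) / g).toNat)) ?_ ?_
    · intro α hα
      obtain ⟨hα1, hα2⟩ := Finset.mem_filter.mp (Finset.mem_coe.mp hα)
      obtain ⟨h1, h2, h3, h4⟩ := hrange α (Finset.mem_range.mp hα1) hα2
      simp only [Finset.coe_product, Set.mem_prod, Finset.mem_coe, Finset.mem_range]
      refine ⟨by omega, ?_⟩
      have h5 : ((W α).1 + X) / g ≤ ((2 * X : ℕ) : ℤ) / g :=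
        Int.ediv_le_ediv (by omega) (by push_cast; exact h4)
      have h6 : ((W α).1 + X) / g ≤ ((2 * X / g : ℕ) : ℤ) := by
        rw [Int.natCast_div]
        exact h5
      exact Nat.lt_succ_of_le (Int.toNat_le.mpr h6)
    · intro α hα α' hα' heq
      obtain ⟨hα1, hα2⟩ := Finset.mem_filter.mp (Finset.mem_coe.mp hα)
      obtain ⟨hα1', hα2'⟩ := Finset.mem_filter.mp (Finset.mem_coe.mp hα')
      obtain ⟨h1, h2, h3, h4⟩ := hrange α (Finset.mem_range.mp hα1) hα2
      obtain ⟨h1', h2', h3', h4'⟩ := hrange α' (Finset.mem_range.mp hα1') hα2'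
      simp only [Prod.mk.injEq] at heq
      obtain ⟨e1, e2⟩ := heq
      have hgz : (0 : ℤ) < g := by omega
      have e1' : (W α).2 = (W α').2 := by omega
      have h7 : 0 ≤ ((W α).1 + X) / (g : ℤ) := Int.ediv_nonneg h3 hgz.le
      have h8 : 0 ≤ ((W α').1 + X) / (g : ℤ) := Int.ediv_nonneg h3' hgz.le
      have e2' : ((W α).1 + X) / (g : ℤ) = ((W α').1 + X) / g := by omega
      have h9 := (hW α hα2).2
      have h9' := (hW α' hα2').2
      rw [e1'] at h9
      have h10 : (W α).1 - (W α').1 = g * ((α : ℤ) - α') := by linarith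
      -- the two numerators agree
      have h11 := Int.emod_add_mul_ediv ((W α).1 + X) (g : ℤ)
      have h12 := Int.emod_add_mul_ediv ((W α').1 + X) (g : ℤ)
      have h13 := Int.emod_nonneg ((W α).1 + X) hgz.ne'
      have h14 := Int.emod_lt_of_pos ((W α).1 + X) hgz
      have h15 := Int.emod_nonneg ((W α').1 + X) hgz.ne'
      have h16 := Int.emod_lt_of_pos ((W α').1 + X) hgz
      rw [e2'] at h11
      have h17 : |(W α).1 - (W α').1| < g := by
        rw [abs_lt]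
        constructor <;> linarith
      have h18 : (W α).1 - (W α').1 = 0 :=
        Int.eq_zero_of_abs_lt_dvd ⟨_, h10⟩ h17
      rw [h18] at h10
      have h19 : (α : ℤ) - α' = 0 := by
        rcases mul_eq_zero.mp h10.symm with h | h
        · omega
        · exact h
      omega
  refine hcard.trans ?_
  rw [Finset.card_product, Finset.card_range, Finset.card_range]
  have h1 : g * (2 * X / g) ≤ 2 * X := Nat.mul_div_le _ _
  have h2 : 2 * X / g ≤ 2 * X := Nat.div_le_self _ _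
  calc (g + 1) * (2 * X / g + 1) = g * (2 * X / g) + g + 2 * X / g + 1 := by ring
    _ ≤ 2 * X + X + 2 * X + X := by omega
    _ = 6 * X := by ring

open Classical in
lemma count_short (Q X : ℕ) (hX : 1 ≤ X) (hXQ : X < Q) :
    ((Finset.range Q).filter fun α : ℕ => ∃ f g : ℤ, (f ≠ 0 ∨ g ≠ 0) ∧ InL Q α f g ∧
      sz f g ≤ X).card ≤ 6 * X ^ 2 := by
  have hsub : ((Finset.range Q).filter fun α : ℕ => ∃ f g : ℤ, (f ≠ 0 ∨ g ≠ 0) ∧ InL Q α f g ∧
      sz f g ≤ X) ⊆ (Finset.Icc 1 X).biUnion fun g =>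
        (Finset.range Q).filter fun α : ℕ => ∃ f : ℤ, f.natAbs ≤ X ∧ InL Q α f g := by
    intro α hα
    obtain ⟨hα1, f, g, h0, hL, hs⟩ := Finset.mem_filter.mp hα
    have hf : f.natAbs ≤ X := (le_max_left _ _).trans hs
    have hg : g.natAbs ≤ X := (le_max_right _ _).trans hs
    have hg0 : g ≠ 0 := by
      rintro rfl
      have hf0 : f ≠ 0 := by simpa using h0
      unfold InL at hL
      rw [zero_mul, zero_sub, dvd_neg] at hL
      have := Int.natAbs_dvd_natAbs.mpr hL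
      rw [Int.natAbs_natCast] at this
      have := Nat.le_of_dvd (Int.natAbs_pos.mpr hf0) this
      omega
    rw [Finset.mem_biUnion]
    refine ⟨g.natAbs, Finset.mem_Icc.mpr ⟨Int.natAbs_pos.mpr hg0, hg⟩,
      Finset.mem_filter.mpr ⟨hα1, ?_⟩⟩
    rcases Int.natAbs_eq g with h | h
    · refine ⟨f, hf, ?_⟩
      rw [← h]
      exact hL
    · refine ⟨-f, by simpa using hf, ?_⟩
      have : ((g.natAbs : ℕ) : ℤ) = -g := by omega
      unfold InL
      rw [this]
      obtain ⟨k, hk⟩ := hL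
      exact ⟨-k, by linear_combination -hk⟩
  refine (Finset.card_le_card hsub).trans ?_
  refine Finset.card_biUnion_le.trans ?_
  refine (Finset.sum_le_card_nsmul _ _ (6 * X) fun g hg => ?_).trans ?_
  · obtain ⟨h1, h2⟩ := Finset.mem_Icc.mp hg
    exact count_g Q X g h1 h2 hXQ
  · rw [Nat.card_Icc, smul_eq_mul]
    apply le_of_eq
    have : X + 1 - 1 = X := by omega
    rw [this]
    ring

/-- The geometric sum over the powers of four. -/
lemma geom4 (K : ℕ) : ∑ j ∈ Finset.Icc 1 K, (1 : ℝ) / 4 ^ j ≤ 1 / 3 := by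
  have h : ∀ K : ℕ, ∑ j ∈ Finset.Icc 1 K, (1 : ℝ) / 4 ^ j = 1 / 3 - 1 / (3 * 4 ^ K) := by
    intro K
    induction K with
    | zero => simp
    | succ K ih =>
      rw [Finset.sum_Icc_succ_top (by omega), ih, pow_succ]
      field_simp
      ring
  rw [h]
  have : (0 : ℝ) < 1 / (3 * 4 ^ K) := by positivity
  linarith

open Classical in
/-- The number of halvings: bookkeeping for one value. -/
lemma halvings (Q m : ℕ) (hm : 0 < m) :
    Q < m ^ 2 * 4 ^ (((Finset.Icc 1 Q).filter fun j => m ^ 2 * 4 ^ j ≤ Q).card + 1) := by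
  set k := ((Finset.Icc 1 Q).filter fun j => m ^ 2 * 4 ^ j ≤ Q).card with hk
  by_contra hcon
  push Not at hcon
  have h1 : Finset.Icc 1 (k + 1) ⊆ (Finset.Icc 1 Q).filter fun j => m ^ 2 * 4 ^ j ≤ Q := by
    intro j hj
    obtain ⟨hj1, hj2⟩ := Finset.mem_Icc.mp hj
    have h2 : m ^ 2 * 4 ^ j ≤ Q :=
      (Nat.mul_le_mul_left _ (Nat.pow_le_pow_right (by norm_num) hj2)).trans hcon
    refine Finset.mem_filter.mpr ⟨Finset.mem_Icc.mpr ⟨hj1, ?_⟩, h2⟩
    have h3 : j < 4 ^ j := Nat.lt_pow_self (by norm_num)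
    have h4 : 4 ^ j ≤ m ^ 2 * 4 ^ j := Nat.le_mul_of_pos_left _ (by positivity)
    omega
  have h2 := Finset.card_le_card h1
  rw [Nat.card_Icc] at h2
  omega

open Classical in
/-- Summation of the number of halvings. -/
lemma sum_halvings {A : Type*} [Fintype A] (Q : ℕ) (hQ : 0 < Q) (m : A → ℕ) (hm : ∀ a, 0 < m a)
    (C : ℕ) (hC : ∀ X : ℕ, 1 ≤ X → X < Q →
      (Finset.univ.filter fun a => m a ≤ X).card ≤ 3 * C * X ^ 2) :
    ((∑ a, ((Finset.Icc 1 Q).filter fun j => m a ^ 2 * 4 ^ j ≤ Q).card : ℕ) : ℝ) ≤ C * Q := by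
  have h1 : ∑ a, ((Finset.Icc 1 Q).filter fun j => m a ^ 2 * 4 ^ j ≤ Q).card =
      ∑ j ∈ Finset.Icc 1 Q, (Finset.univ.filter fun a => m a ^ 2 * 4 ^ j ≤ Q).card := by
    simp only [Finset.card_filter]
    rw [Finset.sum_comm]
  rw [h1]
  push_cast
  have hQr : (0 : ℝ) < Q := by exact_mod_cast hQ
  have h2 : ∀ j ∈ Finset.Icc 1 Q, ((Finset.univ.filter fun a => m a ^ 2 * 4 ^ j ≤ Q).card : ℝ) ≤
      3 * C * Q * (1 / 4 ^ j) := by
    intro j hj
    obtain ⟨hj1, hj2⟩ := Finset.mem_Icc.mp hj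
    set X := Nat.sqrt (Q / 4 ^ j) with hX
    have h4pos : 0 < 4 ^ j := by positivity
    have h4 : 4 ≤ 4 ^ j := by
      calc 4 = 4 ^ 1 := by norm_num
        _ ≤ 4 ^ j := Nat.pow_le_pow_right (by norm_num) hj1
    have hXX : X ^ 2 * 4 ^ j ≤ Q := by
      have h5 : X ^ 2 ≤ Q / 4 ^ j := Nat.sqrt_le' _
      exact (Nat.mul_le_mul_right _ h5).trans (Nat.div_mul_le_self _ _)
    have hsub : (Finset.univ.filter fun a => m a ^ 2 * 4 ^ j ≤ Q) ⊆
        Finset.univ.filter fun a => m a ≤ X := by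
      intro a ha
      have ha2 := (Finset.mem_filter.mp ha).2
      refine Finset.mem_filter.mpr ⟨Finset.mem_univ _, ?_⟩
      rw [hX, Nat.le_sqrt']
      exact (Nat.le_div_iff_mul_le h4pos).mpr ha2
    have hcard : (Finset.univ.filter fun a => m a ^ 2 * 4 ^ j ≤ Q).card ≤ 3 * C * X ^ 2 := by
      refine (Finset.card_le_card hsub).trans ?_
      rcases Nat.eq_zero_or_pos X with h0 | hpos
      · have : (Finset.univ.filter fun a => m a ≤ X) = ∅ := by
          rw [Finset.filter_eq_empty_iff]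
          intro a _
          have := hm a
          omega
        rw [this]
        simp
      · apply hC X hpos
        nlinarith
    have h6 : ((Finset.univ.filter fun a => m a ^ 2 * 4 ^ j ≤ Q).card : ℝ) ≤ 3 * C * X ^ 2 := by
      exact_mod_cast hcard
    have h7 : (X : ℝ) ^ 2 * 4 ^ j ≤ Q := by exact_mod_cast hXX
    have h8 : (X : ℝ) ^ 2 ≤ Q * (1 / 4 ^ j) := by
      rw [mul_one_div, le_div_iff₀ (by positivity)]
      exact h7
    calc ((Finset.univ.filter fun a => m a ^ 2 * 4 ^ j ≤ Q).card : ℝ) ≤ 3 * C * X ^ 2 := h6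
      _ ≤ 3 * C * (Q * (1 / 4 ^ j)) := mul_le_mul_of_nonneg_left h8 (by positivity)
      _ = _ := by ring
  calc ∑ j ∈ Finset.Icc 1 Q, ((Finset.univ.filter fun a => m a ^ 2 * 4 ^ j ≤ Q).card : ℝ)
      ≤ ∑ j ∈ Finset.Icc 1 Q, 3 * C * Q * ((1 : ℝ) / 4 ^ j) := Finset.sum_le_sum h2
    _ = 3 * C * Q * ∑ j ∈ Finset.Icc 1 Q, (1 : ℝ) / 4 ^ j := by rw [Finset.mul_sum]
    _ ≤ 3 * C * Q * (1 / 3) := mul_le_mul_of_nonneg_left (geom4 Q) (by positivity)
    _ = C * Q := by ring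

end Pool.Agent.Helper39K9.NAdic
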