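import Pool.Agent.Helper39K9.NAdic.Sieve

/-!
# Short vectors and admissible vectors of the lattice `f ≡ g α mod Q`
-/

namespace Pool.Agent.Helper39K9.NAdic

open Finset

/-- Membership of `(f, g)` in the lattice. -/
def InL (Q : ℕ) (α f g : ℤ) : Prop := (Q : ℤ) ∣ g * α - f

/-- The sup norm. -/
def sz (f g : ℤ) : ℕ := max f.natAbs g.natAbs

lemma sz_pos {f g : ℤ} (h : f ≠ 0 ∨ g ≠ 0) : 0 < sz f g := by
  unfold sz
  rcases h with h | h
  · exact lt_max_of_lt_left (Int.natAbs_pos.mpr h)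
  · exact lt_max_of_lt_right (Int.natAbs_pos.mpr h)

lemma dirichlet (Q : ℕ) (hQ : 0 < Q) (α : ℤ) :
    ∃ f g : ℤ, (f ≠ 0 ∨ g ≠ 0) ∧ InL Q α f g ∧ sz f g ^ 2 ≤ Q := by
  classical
  set X := Nat.sqrt Q with hX
  have hX2 : X * X ≤ Q := Nat.sqrt_le Q
  have hX3 : Q < (X + 1) * (X + 1) := Nat.lt_succ_sqrt Q
  have : NeZero Q := ⟨hQ.ne'⟩
  have hcard : (Finset.univ : Finset (ZMod Q)).card <
      (Finset.range (X + 1) ×ˢ Finset.range (X + 1)).card := by
    rw [Finset.card_univ, ZMod.card, Finset.card_product, Finset.card_range]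
    exact hX3
  obtain ⟨⟨x, y⟩, hxy, ⟨x', y'⟩, hxy', hne, heq⟩ :=
    Finset.exists_ne_map_eq_of_card_lt_of_maps_to hcard
      (f := fun p : ℕ × ℕ => (((p.2 : ℤ) * α - p.1 : ℤ) : ZMod Q))
      (fun _ _ => Finset.mem_coe.mpr (Finset.mem_univ _))
  simp only [Finset.mem_product, Finset.mem_range] at hxy hxy'
  refine ⟨(x : ℤ) - x', (y : ℤ) - y', ?_, ?_, ?_⟩
  · by_contra hcon
    push Not at hcon
    apply hne
    have h1 : x = x' := by omega
    have h2 : y = y' := by omega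
    rw [h1, h2]
  · unfold InL
    rw [← ZMod.intCast_zmod_eq_zero_iff_dvd]
    simp only at heq
    have h3 : ((y : ℤ) - y') * α - ((x : ℤ) - x') = ((y : ℤ) * α - x) - ((y' : ℤ) * α - x') := by
      ring
    rw [h3, Int.cast_sub, heq, sub_self]
  · have h4 : sz ((x : ℤ) - x') ((y : ℤ) - y') ≤ X := by
      unfold sz
      apply max_le <;> omega
    calc sz ((x : ℤ) - x') ((y : ℤ) - y') ^ 2 ≤ X ^ 2 := Nat.pow_le_pow_left h4 2
      _ = X * X := sq X
      _ ≤ Q := hX2

lemma exists_short (Q : ℕ) (hQ : 0 < Q) (α : ℤ) :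
    ∃ s : ℕ, ∃ f g : ℤ, (f ≠ 0 ∨ g ≠ 0) ∧ InL Q α f g ∧ sz f g = s := by
  obtain ⟨f, g, h1, h2, _⟩ := dirichlet Q hQ α
  exact ⟨_, f, g, h1, h2, rfl⟩

open Classical in
/-- The least sup norm of a nonzero vector. -/
noncomputable def shortest (Q : ℕ) (hQ : 0 < Q) (α : ℤ) : ℕ := Nat.find (exists_short Q hQ α)

lemma shortest_spec (Q : ℕ) (hQ : 0 < Q) (α : ℤ) :
    ∃ f g : ℤ, (f ≠ 0 ∨ g ≠ 0) ∧ InL Q α f g ∧ sz f g = shortest Q hQ α := by
  classical
  exact Nat.find_spec (exists_short Q hQ α)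

lemma shortest_le (Q : ℕ) (hQ : 0 < Q) (α : ℤ) {f g : ℤ} (h : f ≠ 0 ∨ g ≠ 0)
    (hL : InL Q α f g) : shortest Q hQ α ≤ sz f g := by
  classical
  exact Nat.find_min' (exists_short Q hQ α) ⟨f, g, h, hL, rfl⟩

lemma shortest_pos (Q : ℕ) (hQ : 0 < Q) (α : ℤ) : 0 < shortest Q hQ α := by
  obtain ⟨f, g, h1, _, h3⟩ := shortest_spec Q hQ α
  rw [← h3]
  exact sz_pos h1

lemma shortest_sq_le (Q : ℕ) (hQ : 0 < Q) (α : ℤ) : shortest Q hQ α ^ 2 ≤ Q := by
  obtain ⟨f, g, h1, h2, h3⟩ := dirichlet Q hQ α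
  exact (Nat.pow_le_pow_left (shortest_le Q hQ α h1 h2) 2).trans h3

/-- The second basis vector. -/
lemma second (Q : ℕ) (hQ : 0 < Q) (α f1 g1 : ℤ) (h0 : f1 ≠ 0 ∨ g1 ≠ 0) (hL : InL Q α f1 g1)
    (hs : sz f1 g1 = shortest Q hQ α) :
    ∃ f2 g2 : ℤ, InL Q α f2 g2 ∧ IsCoprime g1 g2 ∧ 2 * (sz f1 g1 * sz f2 g2) ≤ 3 * Q := by
  have hQz : (0 : ℤ) < Q := by exact_mod_cast hQ
  obtain ⟨x, hx⟩ := hL
  -- `f1 = g1 α - Q x`; primitivity
  have hcop : IsCoprime x g1 := by
    rw [Int.isCoprime_iff_gcd_eq_one]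
    by_contra hne
    have hgpos : 0 < Int.gcd x g1 := by
      apply Nat.pos_of_ne_zero
      intro hz
      rw [Int.gcd_eq_zero_iff] at hz
      rw [hz.1, hz.2] at hx
      rcases h0 with h | h
      · apply h; linarith
      · exact h hz.2
    set c := Int.gcd x g1 with hc
    have hc2 : 2 ≤ c := by omega
    obtain ⟨x', hx'⟩ : (c : ℤ) ∣ x := Int.gcd_dvd_left _ _
    obtain ⟨g', hg'⟩ : (c : ℤ) ∣ g1 := Int.gcd_dvd_right _ _
    -- the vector `(f', g')`
    set f' := g' * α - Q * x' with hf'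
    have hf1 : f1 = c * f' := by
      rw [hf']
      rw [hx', hg'] at hx
      linarith
    have hin : InL Q α f' g' := ⟨x', by rw [hf']; ring⟩
    have hne' : f' ≠ 0 ∨ g' ≠ 0 := by
      rcases h0 with h | h
      · left; rintro h'; rw [h'] at hf1; simp at hf1; exact h hf1
      · right; rintro h'; rw [h'] at hg'; simp at hg'; exact h hg'
    have hle := shortest_le Q hQ α hne' hin
    rw [← hs] at hle
    have hpos := sz_pos hne'
    have hbig : c * sz f' g' ≤ sz f1 g1 := by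
      unfold sz
      rw [hf1, hg', Int.natAbs_mul, Int.natAbs_mul, Int.natAbs_natCast]
      rcases le_total f'.natAbs g'.natAbs with h | h
      · rw [max_eq_right h]; exact le_max_right _ _
      · rw [max_eq_left h]; exact le_max_left _ _
    have : 2 * sz f' g' ≤ c * sz f' g' := Nat.mul_le_mul_right _ hc2
    omega
  obtain ⟨u, v, huv⟩ := hcop
  -- `u x + v g1 = 1`; take `(x', y') = (-v, u)` so that `x y' - x' g1 = 1`
  have hbase : ∀ t : ℤ, InL Q α ((u + t * g1) * α - Q * (-v + t * x)) (u + t * g1) := fun t =>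
    ⟨-v + t * x, by ring⟩
  have hcopr : ∀ t : ℤ, IsCoprime g1 (u + t * g1) := fun t =>
    ⟨v - t * x, x, by linear_combination huv⟩
  have hdet : ∀ t : ℤ, f1 * (u + t * g1) - ((u + t * g1) * α - Q * (-v + t * x)) * g1 = -Q := by
    intro t
    have : f1 = g1 * α - Q * x := by linarith
    rw [this]
    linear_combination (-(Q : ℤ)) * huv
  set s := sz f1 g1 with hsdef
  have hspos : 0 < s := sz_pos h0
  have hs2 : s ^ 2 ≤ Q := by rw [hs]; exact shortest_sq_le Q hQ α
  have hs2z : (s : ℤ) ^ 2 ≤ Q := by exact_mod_cast hs2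
  have hf1s : |f1| ≤ s := by
    have : f1.natAbs ≤ s := le_max_left _ _
    rw [← Int.natCast_natAbs]
    exact_mod_cast this
  have hg1s : |g1| ≤ s := by
    have : g1.natAbs ≤ s := le_max_right _ _
    rw [← Int.natCast_natAbs]
    exact_mod_cast this
  -- a general reduction
  have hround : ∀ a m : ℤ, |m| = s → ∃ t : ℤ, 2 * |a + t * m| ≤ s := by
    intro a m hm
    have hspz : (0 : ℤ) < s := by exact_mod_cast hspos
    refine ⟨-(round ((a : ℚ) / m)), ?_⟩
    have hmne : (m : ℚ) ≠ 0 := by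
      have : m ≠ 0 := by
        rintro rfl
        simp at hm
        omega
      exact_mod_cast this
    have h1 := abs_sub_round ((a : ℚ) / m)
    have h2 : ((a + -(round ((a : ℚ) / m)) * m : ℤ) : ℚ) =
        m * ((a : ℚ) / m - round ((a : ℚ) / m)) := by
      push_cast
      field_simp
      ring
    have h3 : |((a + -(round ((a : ℚ) / m)) * m : ℤ) : ℚ)| ≤ s / 2 := by
      rw [h2, abs_mul]
      have h4 : |(m : ℚ)| = s := by exact_mod_cast congrArg (fun z : ℤ => (z : ℚ)) hm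
      rw [h4]
      have : (0 : ℚ) ≤ s := by positivity
      nlinarith
    have h5 : (2 : ℚ) * |((a + -(round ((a : ℚ) / m)) * m : ℤ) : ℚ)| ≤ s := by linarith
    exact_mod_cast h5
  have hspz : (0 : ℤ) < s := by exact_mod_cast hspos
  have hfin : ∀ a b : ℤ, 2 * |a| ≤ s → s * |b| ≤ Q + |a| * s →
      2 * (s * max a.natAbs b.natAbs) ≤ 3 * Q := by
    intro a b ha hb
    have h1 : 2 * (s * |a|) ≤ 3 * (Q : ℤ) := by nlinarith [abs_nonneg a]
    have h2 : 2 * (s * |b|) ≤ 3 * (Q : ℤ) := by nlinarith [abs_nonneg a]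
    rw [← Int.natCast_natAbs] at h1 h2
    rcases le_total a.natAbs b.natAbs with h | h
    · rw [max_eq_right h]
      exact_mod_cast h2
    · rw [max_eq_left h]
      exact_mod_cast h1
  rcases le_total f1.natAbs g1.natAbs with hle | hle
  · -- the largest coordinate is `g1`
    have hg : |g1| = s := by
      rw [hsdef, sz, max_eq_right hle, Int.natCast_natAbs]
    obtain ⟨t, ht⟩ := hround u g1 hg
    refine ⟨_, _, hbase t, hcopr t, ?_⟩
    have hd := hdet t
    set a := u + t * g1 with ha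
    set b := a * α - Q * (-v + t * x) with hb
    have h1 : |b| * s = |f1 * a + Q| := by
      rw [← hg, ← abs_mul]
      congr 1
      linarith
    have h2 : |f1 * a + Q| ≤ |a| * s + Q := by
      refine (abs_add_le _ _).trans ?_
      rw [abs_mul, abs_of_pos hQz]
      nlinarith [abs_nonneg a]
    have := hfin a b ht (by linarith)
    unfold sz
    rw [max_comm]
    exact this
  · -- the largest coordinate is `f1`
    have hf : |f1| = s := by
      rw [hsdef, sz, max_eq_left hle, Int.natCast_natAbs]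
    obtain ⟨t, ht⟩ := hround (u * α + Q * v) f1 hf
    refine ⟨_, _, hbase t, hcopr t, ?_⟩
    have hd := hdet t
    set a := u + t * g1 with ha
    set b := a * α - Q * (-v + t * x) with hb
    have hb2 : u * α + Q * v + t * f1 = b := by
      rw [hb, ha]
      have : f1 = g1 * α - Q * x := by linarith
      rw [this]
      ring
    rw [hb2] at ht
    have h1 : |a| * s = |b * g1 - Q| := by
      rw [← hf, ← abs_mul]
      congr 1
      linarith
    have h2 : |b * g1 - Q| ≤ |b| * s + Q := by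
      refine (abs_sub _ _).trans ?_
      rw [abs_mul, abs_of_pos hQz]
      nlinarith [abs_nonneg b]
    exact hfin b a ht (by linarith)

/-- An admissible vector. -/
lemma admissible (N Q : ℕ) (hN : 2 ≤ N) (hQ : 0 < Q) (hQN : ∀ c : ℤ, IsCoprime c (N : ℤ) →
    IsCoprime c (Q : ℤ)) (α : ℤ) :
    ∃ f g : ℤ, 0 < g ∧ IsCoprime f g ∧ IsCoprime g (N : ℤ) ∧ InL Q α f g ∧
      shortest Q hQ α * sz f g ≤ (shiftB N + 1) * Q := by
  obtain ⟨f1, g1, h0, hL1, hs⟩ := shortest_spec Q hQ α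
  obtain ⟨f2, g2, hL2, hcop, h3Q⟩ := second Q hQ α f1 g1 h0 hL1 hs
  obtain ⟨x, hx, hcopN⟩ := sieve g1 g2 hcop N (by omega)
  set s := sz f1 g1 with hsdef
  have hs2 : s ^ 2 ≤ Q := by rw [hs]; exact shortest_sq_le Q hQ α
  set f := f2 + x * f1 with hf
  set g := g2 + x * g1 with hg
  have hL : InL Q α f g := by
    obtain ⟨a, ha⟩ := hL1
    obtain ⟨b, hb⟩ := hL2
    exact ⟨b + x * a, by rw [hf, hg]; linear_combination hb + x * ha⟩
  have hbound : s * sz f g ≤ (shiftB N + 1) * Q := by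
    have h1 : sz f g ≤ sz f2 g2 + x * s := by
      have hxs1 : x * f1.natAbs ≤ x * s := Nat.mul_le_mul_left _ (le_max_left _ _)
      have hxs2 : x * g1.natAbs ≤ x * s := Nat.mul_le_mul_left _ (le_max_right _ _)
      have ha : f2.natAbs ≤ sz f2 g2 := le_max_left _ _
      have hb : g2.natAbs ≤ sz f2 g2 := le_max_right _ _
      have hc : f.natAbs ≤ f2.natAbs + x * f1.natAbs := by
        rw [hf]
        refine (Int.natAbs_add_le _ _).trans ?_
        rw [Int.natAbs_mul, Int.natAbs_natCast]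
      have hd : g.natAbs ≤ g2.natAbs + x * g1.natAbs := by
        rw [hg]
        refine (Int.natAbs_add_le _ _).trans ?_
        rw [Int.natAbs_mul, Int.natAbs_natCast]
      unfold sz at *
      apply max_le <;> omega
    have h2 : s * sz f g ≤ s * sz f2 g2 + x * s ^ 2 := by
      calc s * sz f g ≤ s * (sz f2 g2 + x * s) := Nat.mul_le_mul_left _ h1
        _ = _ := by ring
    have h3 : x * s ^ 2 ≤ x * Q := Nat.mul_le_mul_left _ hs2
    have h4 : (x + 1) * Q ≤ shiftB N * Q := Nat.mul_le_mul_right _ hx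
    have h5 : (x + 1) * Q = x * Q + Q := by ring
    have h6 : (shiftB N + 1) * Q = shiftB N * Q + Q := by ring
    omega
  have hg0 : g ≠ 0 := by
    intro h
    rw [h, isCoprime_zero_left] at hcopN
    have := Int.isUnit_iff.mp hcopN
    omega
  -- divide by the gcd
  have hcpos : 0 < Int.gcd f g := Int.gcd_pos_of_ne_zero_right _ hg0
  set c := Int.gcd f g with hc
  obtain ⟨f', hf'⟩ : (c : ℤ) ∣ f := Int.gcd_dvd_left _ _
  obtain ⟨g', hg'⟩ : (c : ℤ) ∣ g := Int.gcd_dvd_right _ _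
  have hc0 : (c : ℤ) ≠ 0 := by exact_mod_cast hcpos.ne'
  have hcop' : IsCoprime f' g' := by
    rw [Int.isCoprime_iff_gcd_eq_one]
    have h1 : Int.gcd f g = c * Int.gcd f' g' := by
      conv_lhs => rw [hf', hg']
      rw [Int.gcd_mul_left, Int.natAbs_natCast]
    rw [← hc] at h1
    have h2 : c * Int.gcd f' g' = c * 1 := by omega
    exact Nat.eq_of_mul_eq_mul_left hcpos h2
  have hcN : IsCoprime (c : ℤ) (N : ℤ) := by
    rw [hg'] at hcopN
    exact hcopN.of_mul_left_left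
  have hgN : IsCoprime g' (N : ℤ) := by
    rw [hg'] at hcopN
    exact hcopN.of_mul_left_right
  have hL' : InL Q α f' g' := by
    unfold InL at hL ⊢
    apply (hQN c hcN).symm.dvd_of_dvd_mul_left
    rw [hf', hg'] at hL
    have : (c : ℤ) * (g' * α - f') = c * g' * α - c * f' := by ring
    rwa [this]
  have hsz' : sz f' g' ≤ sz f g := by
    have h1 : f'.natAbs ≤ f.natAbs := by
      rw [hf', Int.natAbs_mul, Int.natAbs_natCast]
      exact Nat.le_mul_of_pos_left _ hcpos
    have h2 : g'.natAbs ≤ g.natAbs := by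
      rw [hg', Int.natAbs_mul, Int.natAbs_natCast]
      exact Nat.le_mul_of_pos_left _ hcpos
    exact max_le_max h1 h2
  have hbound' : shortest Q hQ α * sz f' g' ≤ (shiftB N + 1) * Q := by
    rw [← hs]
    exact (Nat.mul_le_mul_left _ hsz').trans hbound
  have hg'0 : g' ≠ 0 := by
    rintro rfl
    rw [mul_zero] at hg'
    exact hg0 hg'
  rcases lt_or_gt_of_ne hg'0 with hneg | hpos
  · refine ⟨-f', -g', by omega, hcop'.neg_neg, hgN.neg_left, ?_, ?_⟩
    · obtain ⟨k, hk⟩ := hL'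
      exact ⟨-k, by linear_combination -hk⟩
    · have : sz (-f') (-g') = sz f' g' := by unfold sz; simp
      rw [this]
      exact hbound'
  · exact ⟨f', g', hpos, hcop', hgN, hL', hbound'⟩

end Pool.Agent.Helper39K9.NAdic
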