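import Mathlib

/-!
# A small shift which is coprime to a given integer
-/

namespace Pool.Agent.Helper39K9.NAdic

open Finset

/-- The shift bound. -/
def shiftB (N : ℕ) : ℕ := (N.primeFactors.card + 1) * 4 ^ N.primeFactors.card

lemma sieve (g1 g2 : ℤ) (h : IsCoprime g1 g2) (N : ℕ) (hN : N ≠ 0) :
    ∃ x : ℕ, x < shiftB N ∧ IsCoprime (g2 + x * g1) (N : ℤ) := by
  classical
  set w := N.primeFactors.card with hw
  let small : Finset ℕ := N.primeFactors.filter fun p : ℕ => ¬ (p : ℤ) ∣ g1 ∧ p ≤ w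
  let W : ℕ := ∏ p ∈ small, p
  have hWpos : 0 < W := Finset.prod_pos fun p hp =>
    (Nat.prime_of_mem_primeFactors (Finset.mem_filter.mp hp).1).pos
  have hWle : W ≤ 4 ^ w := by
    refine le_trans ?_ (primorial_le_four_pow w)
    refine Nat.le_of_dvd (primorial_pos w) ?_
    apply Finset.prod_dvd_prod_of_subset
    intro p hp
    obtain ⟨h1, h2⟩ := Finset.mem_filter.mp hp
    simp only [Finset.mem_filter, Finset.mem_range]
    exact ⟨by omega, Nat.prime_of_mem_primeFactors h1⟩
  have hWg : IsCoprime g1 (W : ℤ) := by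
    simp only [W, Nat.cast_prod]
    apply IsCoprime.prod_right
    intro p hp
    obtain ⟨h1, h2⟩ := Finset.mem_filter.mp hp
    have hp' := Nat.prime_iff_prime_int.mp (Nat.prime_of_mem_primeFactors h1)
    exact ((Prime.coprime_iff_not_dvd hp').mpr h2.1).symm
  -- the residue modulo `W`
  obtain ⟨u, v, huv⟩ := hWg
  let c : ℕ := (((1 - g2) * u) % (W : ℤ)).toNat
  have hcnn : 0 ≤ ((1 - g2) * u) % (W : ℤ) := Int.emod_nonneg _ (by positivity)
  have hclt : c < W := by
    have := Int.emod_lt_of_pos ((1 - g2) * u) (by exact_mod_cast hWpos : (0 : ℤ) < W)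
    omega
  have hcmod : (W : ℤ) ∣ (c : ℤ) - (1 - g2) * u := by
    have : (c : ℤ) = ((1 - g2) * u) % (W : ℤ) := Int.toNat_of_nonneg hcnn
    rw [this]
    have := Int.emod_add_mul_ediv ((1 - g2) * u) (W : ℤ)
    exact ⟨-((1 - g2) * u / (W : ℤ)), by linarith⟩
  have hgood1 : ∀ m : ℕ, (W : ℤ) ∣ g2 + ((c + m * W : ℕ) : ℤ) * g1 - 1 := by
    intro m
    obtain ⟨k, hk⟩ := hcmod
    refine ⟨k * g1 + m * g1 - (1 - g2) * v, ?_⟩
    push_cast
    linear_combination g1 * hk + (1 - g2) * huv
  -- large primes kill at most one `m`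
  let large : Finset ℕ := N.primeFactors.filter fun p : ℕ => ¬ (p : ℤ) ∣ g1 ∧ w < p
  have hex : ∃ m ∈ Finset.range (w + 1), ∀ p ∈ large,
      ¬ (p : ℤ) ∣ g2 + ((c + m * W : ℕ) : ℤ) * g1 := by
    by_contra hcon
    push Not at hcon
    choose! F hF using hcon
    have hcard : (Finset.range (w + 1)).card ≤ large.card := by
      refine Finset.card_le_card_of_injOn F (fun m hm => (hF m hm).1) ?_
      intro m hm m' hm' heq
      have h1 := (hF m hm)
      have h2 := (hF m' hm')
      rw [← heq] at h2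
      have hpl := h1.1
      obtain ⟨hp1, hp2, hp3⟩ := Finset.mem_filter.mp hpl
      have hp' := Nat.prime_of_mem_primeFactors hp1
      have hpi := Nat.prime_iff_prime_int.mp hp'
      have hd := dvd_sub h1.2 h2.2
      have he : g2 + ((c + m * W : ℕ) : ℤ) * g1 - (g2 + ((c + m' * W : ℕ) : ℤ) * g1) =
          ((m : ℤ) - m') * ((W : ℤ) * g1) := by
        push_cast
        ring
      rw [he] at hd
      have hpW : ¬ ((F m : ℕ) : ℤ) ∣ (W : ℤ) := by
        intro hdvd
        have hdvd' : F m ∣ W := by exact_mod_cast hdvd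
        obtain ⟨q, hq, hdq⟩ := (Prime.dvd_finsetProd_iff hp'.prime _).mp hdvd'
        obtain ⟨hq1, hq2⟩ := Finset.mem_filter.mp hq
        have := (Nat.prime_dvd_prime_iff_eq hp' (Nat.prime_of_mem_primeFactors hq1)).mp hdq
        omega
      have hmm : ((F m : ℕ) : ℤ) ∣ (m : ℤ) - m' := by
        rcases hpi.dvd_or_dvd hd with h | h
        · exact h
        · rcases hpi.dvd_or_dvd h with h | h
          · exact absurd h hpW
          · exact absurd h hp2
      have hm1 : m < w + 1 := Finset.mem_range.mp hm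
      have hm2 : m' < w + 1 := Finset.mem_range.mp hm'
      have habs : |(m : ℤ) - m'| < (F m : ℕ) := by
        rw [abs_lt]
        constructor <;> omega
      have := Int.eq_zero_of_abs_lt_dvd hmm habs
      omega
    rw [Finset.card_range] at hcard
    have : large.card ≤ w := Finset.card_filter_le _ _
    omega
  obtain ⟨m, hm, hlarge⟩ := hex
  refine ⟨c + m * W, ?_, ?_⟩
  · have hm' : m < w + 1 := Finset.mem_range.mp hm
    calc c + m * W < W + m * W := by omega
      _ = (m + 1) * W := by ring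
      _ ≤ (w + 1) * 4 ^ w := Nat.mul_le_mul (by omega) hWle
  · -- no common prime factor
    rw [Int.isCoprime_iff_gcd_eq_one]
    by_contra hne
    obtain ⟨p, hp, hpd⟩ := Nat.exists_prime_and_dvd hne
    have hp1 : (p : ℤ) ∣ g2 + ((c + m * W : ℕ) : ℤ) * g1 :=
      (Int.natCast_dvd_natCast.mpr hpd).trans (Int.gcd_dvd_left _ _)
    have hp2 : (p : ℤ) ∣ (N : ℤ) := (Int.natCast_dvd_natCast.mpr hpd).trans (Int.gcd_dvd_right _ _)
    have hp2' : p ∣ N := by exact_mod_cast hp2
    have hmem : p ∈ N.primeFactors := Nat.mem_primeFactors.mpr ⟨hp, hp2', hN⟩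
    have hpi := Nat.prime_iff_prime_int.mp hp
    by_cases hg : (p : ℤ) ∣ g1
    · have hg2 : (p : ℤ) ∣ g2 := by
        have := dvd_sub hp1 (Dvd.dvd.mul_left hg ((c + m * W : ℕ) : ℤ))
        simpa using this
      obtain ⟨a, b, hab⟩ := h
      have : (p : ℤ) ∣ 1 := by
        rw [← hab]
        exact dvd_add (Dvd.dvd.mul_left hg _) (Dvd.dvd.mul_left hg2 _)
      exact hpi.not_dvd_one this
    · by_cases hsm : p ≤ w
      · have hps : p ∈ small := Finset.mem_filter.mpr ⟨hmem, hg, hsm⟩
        have hpW : (p : ℤ) ∣ (W : ℤ) := by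
          exact_mod_cast Finset.dvd_prod_of_mem (fun p => p) hps
        have h3 := hpW.trans (hgood1 m)
        have : (p : ℤ) ∣ 1 := by
          have := dvd_sub hp1 h3
          simpa using this
        exact hpi.not_dvd_one this
      · exact hlarge p (Finset.mem_filter.mpr ⟨hmem, hg, by omega⟩) hp1

end Pool.Agent.Helper39K9.NAdic
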